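import Pool.Agent.X207.StepLine

/-!
# MP_076221_an : extending step-isometries from dense sets

Let `X` be a strictly convex Banach space with separable dual. Every step-isometry on a dense
subset of `X` extends to a step-isometry on `X`.
-/

namespace Pool.Agent.Results.MP_076221_an.Extension

/-- A step-isometry on the subset `S`: a bijection of `S` preserving the integer parts of all
distances. -/
def IsStepIsometryOn {X : Type*} [NormedAddCommGroup X] {S : Set X} (T : S → S) : Prop :=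
  Function.Bijective T ∧ ∀ x y : S, ⌊‖(x : X) - (y : X)‖⌋ = ⌊‖(T x : X) - (T y : X)‖⌋

/-- A step-isometry on the whole space. -/
def IsStepIsometry {X : Type*} [NormedAddCommGroup X] (T : X → X) : Prop :=
  Function.Bijective T ∧ ∀ x y : X, ⌊‖x - y‖⌋ = ⌊‖T x - T y‖⌋

/-- Strict convexity: the midpoint of two distinct unit vectors has norm less than one. -/
def StrictlyConvexNorm (𝕜 X : Type*) [RCLike 𝕜] [NormedAddCommGroup X] [NormedSpace 𝕜 X] : Prop :=
  ∀ x y : X, ‖x‖ = 1 → ‖y‖ = 1 → x ≠ y → ‖(2 : 𝕜)⁻¹ • (x + y)‖ < 1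

/-- **Main theorem.** Let `X` be a real or complex Banach space that is strictly convex and has
norm-separable dual, let `S ⊆ X` be dense (countable or not), and let `T : S → S` be a
step-isometry on `S`. Then `T` extends to a step-isometry of `X`. -/
theorem result {𝕜 X : Type*} [RCLike 𝕜] [NormedAddCommGroup X] [NormedSpace 𝕜 X]
    [CompleteSpace X] (hX : StrictlyConvexNorm 𝕜 X)
    (hsep : TopologicalSpace.SeparableSpace (StrongDual 𝕜 X))
    (S : Set X) (hS : Dense S) (T : S → S) (hT : IsStepIsometryOn T) :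
    ∃ T' : X → X, IsStepIsometry T' ∧ ∀ s : S, T' s = T s := by
  let _ : NormedSpace ℝ X := NormedSpace.restrictScalars ℝ 𝕜 X
  have : IsScalarTower ℝ 𝕜 X := RestrictScalars.isScalarTower ℝ 𝕜 X
  have hsepR : TopologicalSpace.SeparableSpace (StrongDual ℝ X) := by
    let R : StrongDual 𝕜 X ≃ₗᵢ[ℝ] StrongDual ℝ X := (StrongDual.extendRCLikeₗᵢ (𝕜 := 𝕜) (F := X)).symm
    exact (R.surjective.denseRange).separableSpace R.continuous
  have e : ∀ (k : ℕ) (r : ℝ), r < (k : ℝ) ↔ ⌊r⌋ < (k : ℤ) := by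
    intro k r
    rw [Int.floor_lt]
    simp
  have hstep : X207.Step.IsStepOn (Equiv.ofBijective T hT.1) := by
    intro k x y
    simp only [Equiv.ofBijective_apply]
    rw [e, e, hT.2 x y]
  have hsc : ∀ x y : X, ‖x‖ = 1 → ‖y‖ = 1 → x ≠ y → ‖x + y‖ < 2 := by
    intro x y hx hy hxy
    have := hX x y hx hy hxy
    rw [norm_smul, norm_inv, RCLike.norm_ofNat] at this
    rw [inv_mul_lt_iff₀ (by norm_num)] at this
    linarith
  obtain ⟨F, h1, h2, h3⟩ := X207.Step.extend_all hsc hS hstep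
  refine ⟨F, ⟨h2, fun x y => ?_⟩, h3⟩
  have key : ∀ k : ℕ, ⌊‖x - y‖⌋ < (k : ℤ) ↔ ⌊‖F x - F y‖⌋ < (k : ℤ) := by
    intro k
    rw [← e, ← e]
    exact h1 k x y
  have a0 : 0 ≤ ⌊‖x - y‖⌋ := Int.floor_nonneg.2 (norm_nonneg _)
  have b0 : 0 ≤ ⌊‖F x - F y‖⌋ := Int.floor_nonneg.2 (norm_nonneg _)
  have k1 := (key (⌊‖x - y‖⌋ + 1).toNat).1 (by omega)
  have k2 := (key (⌊‖F x - F y‖⌋ + 1).toNat).2 (by omega)
  omega

end Pool.Agent.Results.MP_076221_an.Extension
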